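import Pool.Agent.V1185.Spiral.Trans

open Set Real Filter Topology MeasureTheory
open scoped ENNReal

namespace Pool.Agent.Results.MP_7e532d_an.SpiralDim

open Pool.Agent.V1185.Spiral

/-- The upper and lower Minkowski dimensions of a bounded planar set `S` both exist as a limit
and are equal to `d`: `2 - log |S_ε| / log ε → d` as `ε → 0+`, where `S_ε` is the set of points
at (Euclidean) distance at most `ε` from `S`. -/
def HasMinkowskiDim (S : Set (EuclideanSpace ℝ (Fin 2))) (d : ℝ) : Prop :=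
  Tendsto (fun ε : ℝ => 2 - log (volume.real (Metric.cthickening ε S)) / log ε) (𝓝[>] 0) (𝓝 d)

/-- `(x, y)` is a trajectory of
`x' = -n y^(2n-1) + σ n x^m y^(n-1) ρ^k`, `y' = m x^(2m-1) + σ m x^(m-1) y^n ρ^k`,
`ρ = x^(2m) + y^(2n)`, on the half line `{t : 0 ≤ -σ t}`, which is not the equilibrium and tends
to the origin as `t → +∞` (if `σ = -1`) or as `t → -∞` (if `σ = 1`). -/
structure IsTrajectory (m n k : ℕ) (σ : ℝ) (x y : ℝ → ℝ) : Prop where
  dx : ∀ t, 0 ≤ -σ * t → HasDerivAt x (-(n * y t ^ (2 * n - 1)) +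
    σ * n * x t ^ m * y t ^ (n - 1) * (x t ^ (2 * m) + y t ^ (2 * n)) ^ k) t
  dy : ∀ t, 0 ≤ -σ * t → HasDerivAt y (m * x t ^ (2 * m - 1) +
    σ * m * x t ^ (m - 1) * y t ^ n * (x t ^ (2 * m) + y t ^ (2 * n)) ^ k) t
  ne_zero : ∀ t, 0 ≤ -σ * t → x t ≠ 0 ∨ y t ≠ 0
  lim : Tendsto (fun s => x (-σ * s)) atTop (𝓝 0) ∧ Tendsto (fun s => y (-σ * s)) atTop (𝓝 0)

lemma rpow_inv_exp {ε a : ℝ} (hε : 0 < ε) (ha : 0 < a) (b : ℝ) :
    (ε ^ (-(1 / a))) ^ (-b) = ε ^ (b / a) := by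
  rw [← rpow_mul hε.le]; congr 1; field_simp

lemma dim_of_sys {m n k : ℕ} {u X Y w : ℝ → ℝ} (S : Sys m n k u X Y w) {τ : ℝ} (hτ : |τ| = 1)
    {E : Set E2}
    (hE : ∀ p ∈ E, ∃ t, 0 ≤ t ∧ p 0 = u t ^ (-al m k) * X t ∧ p 1 = τ * (u t ^ (-al n k) * Y t))
    {u₁ : ℝ} (hE2 : ∀ p : E2, ∀ t, 0 ≤ t → u₁ ≤ u t → p 0 = u t ^ (-al m k) * X t →
        p 1 = τ * (u t ^ (-al n k) * Y t) → p ∈ E) :
    (∃ c C : ℝ, 0 < c ∧ 0 < C ∧ ∀ᶠ ε : ℝ in 𝓝[>] 0,
      c * ε ^ ((al m k + al n k) / (1 + al n k)) ≤ volume.real (Metric.cthickening ε E) ∧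
      volume.real (Metric.cthickening ε E) ≤ C * ε ^ ((al m k + al n k) / (1 + al n k))) := by
  have hkN : 0 < k := S.hk
  have ha0 := al_pos S.m_pos hkN
  have hb0 := al_pos S.n_pos hkN
  set α := al m k with hα
  set β := al n k with hβ
  obtain ⟨C, hC, hup⟩ := S.area_upper hτ
  obtain ⟨D, hD, hlow⟩ := S.area_lower hτ
  obtain ⟨U₁, hU₁⟩ := hlow u₁
  have hβ1 : 0 < 1 + β := by linarith
  set d := (α + β) / (1 + β) with hd
  refine ⟨D ^ (-d), C, rpow_pos_of_pos hD _, hC, ?_⟩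
  -- `ε^{-1/(1+β)} → ∞`
  have hlimU : Tendsto (fun ε : ℝ => ε ^ (-(1 / (1 + β)))) (𝓝[>] 0) atTop := by
    have : Tendsto (fun ε : ℝ => (ε ^ (1 / (1 + β)))⁻¹) (𝓝[>] 0) atTop := by
      refine tendsto_inv_nhdsGT_zero.comp ?_
      refine tendsto_nhdsWithin_iff.2 ⟨?_, ?_⟩
      · have h1 : Tendsto (fun ε : ℝ => ε ^ (1 / (1 + β))) (𝓝 0) (𝓝 (0 ^ (1 / (1 + β)))) :=
          (continuousAt_rpow_const 0 (1 / (1 + β)) (Or.inr (by positivity)))
        rw [zero_rpow (by positivity)] at h1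
        exact h1.mono_left nhdsWithin_le_nhds
      · filter_upwards [self_mem_nhdsWithin] with ε hε
        exact rpow_pos_of_pos hε _
    refine this.congr' ?_
    filter_upwards [self_mem_nhdsWithin] with ε hε
    rw [rpow_neg (le_of_lt hε)]
  have hlimD : Tendsto (fun ε : ℝ => (ε / D) ^ (-(1 / (1 + β)))) (𝓝[>] 0) atTop := by
    refine hlimU.comp ?_
    refine tendsto_nhdsWithin_iff.2 ⟨?_, ?_⟩
    · have h1 : Tendsto (fun ε : ℝ => ε / D) (𝓝 0) (𝓝 (0 / D)) := by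
        exact (continuous_id.div_const D).tendsto 0
      rw [zero_div] at h1
      exact h1.mono_left nhdsWithin_le_nhds
    · filter_upwards [self_mem_nhdsWithin] with ε hε
      exact div_pos hε hD
  filter_upwards [self_mem_nhdsWithin, hlimU.eventually_ge_atTop (max 1 (u 0)),
    hlimD.eventually_ge_atTop U₁] with ε hε h1 h2
  have hε0 : 0 < ε := hε
  -- upper bound
  have e1 : (ε ^ (-(1 / (1 + β)))) ^ (-(1 + β)) = ε := by
    rw [rpow_inv_exp hε0 hβ1, div_self hβ1.ne', rpow_one]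
  have e2 : (ε ^ (-(1 / (1 + β)))) ^ (-(α + β)) = ε ^ d := rpow_inv_exp hε0 hβ1 _
  have g1 := hup _ ((le_max_left _ _).trans h1) ((le_max_right _ _).trans h1) E hE
  rw [← hα, ← hβ, e1, e2] at g1
  -- lower bound
  have hεD : 0 < ε / D := div_pos hε0 hD
  have e3 : ((ε / D) ^ (-(1 / (1 + β)))) ^ (-(1 + β)) = ε / D := by
    rw [rpow_inv_exp hεD hβ1, div_self hβ1.ne', rpow_one]
  have e4 : ((ε / D) ^ (-(1 / (1 + β)))) ^ (-(α + β)) = (ε / D) ^ d := rpow_inv_exp hεD hβ1 _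
  have g2 := hU₁ _ h2 E hE2
  rw [← hα, ← hβ, e3, e4, mul_div_cancel₀ _ hD.ne'] at g2
  have hfin : volume (Metric.cthickening ε E) ≠ ⊤ :=
    ne_top_of_le_ne_top ENNReal.ofReal_ne_top g1
  constructor
  · have e5 : D ^ (-d) * ε ^ d = (ε / D) ^ d := by
      rw [div_rpow hε0.le hD.le, rpow_neg hD.le]; field_simp
    rw [e5, measureReal_def]
    exact (ENNReal.ofReal_le_iff_le_toReal hfin).1 g2
  · rw [measureReal_def]
    exact ENNReal.toReal_le_of_le_ofReal (by positivity) g1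

lemma dim_of_bounds {E : Set E2} {d c C : ℝ} (hc : 0 < c) (hC : 0 < C)
    (h : ∀ᶠ ε : ℝ in 𝓝[>] 0, c * ε ^ d ≤ volume.real (Metric.cthickening ε E) ∧
      volume.real (Metric.cthickening ε E) ≤ C * ε ^ d) : HasMinkowskiDim E (2 - d) := by
  unfold HasMinkowskiDim
  apply Tendsto.const_sub
  have hlog : Tendsto (fun ε : ℝ => log ε) (𝓝[>] 0) atBot := tendsto_log_nhdsGT_zero
  have hl1 : Tendsto (fun ε : ℝ => log c / log ε + d) (𝓝[>] 0) (𝓝 d) := by
    have := (hlog.const_div_atBot (log c)).add_const d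
    rwa [zero_add] at this
  have hl2 : Tendsto (fun ε : ℝ => log C / log ε + d) (𝓝[>] 0) (𝓝 d) := by
    have := (hlog.const_div_atBot (log C)).add_const d
    rwa [zero_add] at this
  refine tendsto_of_tendsto_of_tendsto_of_le_of_le' hl2 hl1 ?_ ?_
  · filter_upwards [h, self_mem_nhdsWithin, hlog.eventually_lt_atBot 0] with ε h1 hε hneg
    have hε0 : 0 < ε := hε
    have hp : 0 < volume.real (Metric.cthickening ε E) :=
      lt_of_lt_of_le (mul_pos hc (rpow_pos_of_pos hε0 _)) h1.1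
    have h3 := log_le_log hp h1.2
    rw [log_mul hC.ne' (rpow_pos_of_pos hε0 _).ne', log_rpow hε0] at h3
    have h4 : log C / log ε + d = (log C + d * log ε) / log ε := by
      rw [add_div, mul_div_cancel_right₀ _ hneg.ne]
    rw [h4]
    exact div_le_div_of_nonpos_of_le hneg.le h3
  · filter_upwards [h, self_mem_nhdsWithin, hlog.eventually_lt_atBot 0] with ε h1 hε hneg
    have hε0 : 0 < ε := hε
    have h3 := log_le_log (mul_pos hc (rpow_pos_of_pos hε0 _)) h1.1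
    rw [log_mul hc.ne' (rpow_pos_of_pos hε0 _).ne', log_rpow hε0] at h3
    have h4 : log c / log ε + d = (log c + d * log ε) / log ε := by
      rw [add_div, mul_div_cancel_right₀ _ hneg.ne]
    rw [h4]
    exact div_le_div_of_nonpos_of_le hneg.le h3

/-- For odd `m > n`, `k ≥ 1`, `σ = ± 1`, every spiral trajectory near the origin (the part of a
trajectory lying in a neighbourhood `N` of the origin) has Minkowski dimension
`2 - (1 + n/m)/(1 + 2kn)`, and is Minkowski nondegenerate. -/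
theorem result (m n k : ℕ) (hm : Odd m) (hn : Odd n) (hnm : n < m) (hk : 1 ≤ k) (σ : ℝ)
    (hσ : σ = 1 ∨ σ = -1) (x y : ℝ → ℝ) (hxy : IsTrajectory m n k σ x y)
    (N : Set (EuclideanSpace ℝ (Fin 2))) (hN : N ∈ 𝓝 (0 : EuclideanSpace ℝ (Fin 2))) :
    HasMinkowskiDim {p | (∃ t, 0 ≤ -σ * t ∧ p = !₂[x t, y t]) ∧ p ∈ N}
      (2 - (1 + (n : ℝ) / m) / (1 + 2 * k * n)) ∧
    ∃ c C : ℝ, 0 < c ∧ 0 < C ∧ ∀ᶠ ε : ℝ in 𝓝[>] 0,
      c * ε ^ ((1 + (n : ℝ) / m) / (1 + 2 * k * n)) ≤ volume.real (Metric.cthickening ε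
        {p | (∃ t, 0 ≤ -σ * t ∧ p = !₂[x t, y t]) ∧ p ∈ N}) ∧
      volume.real (Metric.cthickening ε {p | (∃ t, 0 ≤ -σ * t ∧ p = !₂[x t, y t]) ∧ p ∈ N})
        ≤ C * ε ^ ((1 + (n : ℝ) / m) / (1 + 2 * k * n)) := by
  have hσσ : σ * σ = 1 := by rcases hσ with h | h <;> rw [h] <;> norm_num
  set τ : ℝ := -σ with hτ
  have hττ : τ * τ = 1 := by rw [hτ]; linarith
  have hτabs : |τ| = 1 := by
    rcases hσ with h | h <;> rw [hτ, h] <;> norm_num
  have hτcase : τ = 1 ∨ τ = -1 := by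
    rcases hσ with h | h
    · right; rw [hτ, h]
    · left; rw [hτ, h]; norm_num
  -- the transformed trajectory
  let x' : ℝ → ℝ := fun s => x (τ * s)
  let y' : ℝ → ℝ := fun s => τ * y (τ * s)
  have hdom : ∀ s : ℝ, 0 ≤ s → 0 ≤ τ * (τ * s) := by
    intro s hs; rw [← mul_assoc, hττ, one_mul]; exact hs
  have hpow2n : ∀ s, y' s ^ (2 * n) = y (τ * s) ^ (2 * n) := by
    intro s
    simp only [y', mul_pow]
    rcases hτcase with h | h <;> rw [h] <;> simp
  have hn1 : Even (n - 1) := hn.tsub_odd odd_one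
  have h2n1 : Odd (2 * n - 1) := ⟨n - 1, by have := hn.pos; omega⟩
  have hτs : ∀ s : ℝ, HasDerivAt (fun s : ℝ => τ * s) τ s := by
    intro s
    simpa using (hasDerivAt_id s).const_mul τ
  have hτn : τ ^ n = τ := by
    rcases hτcase with h | h <;> rw [h]
    · simp
    · exact hn.neg_one_pow
  have hτn1 : τ ^ (n - 1) = 1 := by
    rcases hτcase with h | h <;> rw [h]
    · simp
    · exact hn1.neg_one_pow
  have hτ2n1 : τ ^ (2 * n - 1) = τ := by
    rcases hτcase with h | h <;> rw [h]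
    · simp
    · exact h2n1.neg_one_pow
  have hστ : σ = -τ := by rw [hτ]; ring
  have hx' : ∀ t, 0 ≤ t → HasDerivAt x' (-(n * y' t ^ (2 * n - 1)) -
      n * x' t ^ m * y' t ^ (n - 1) * (x' t ^ (2 * m) + y' t ^ (2 * n)) ^ k) t := by
    intro t ht
    have h1 := (hxy.dx (τ * t) (by rw [← hτ]; exact hdom t ht)).comp t (hτs t)
    refine h1.congr_deriv ?_
    rw [hpow2n]
    simp only [x', y', mul_pow, hτn1, hτ2n1]
    rw [hστ]
    linear_combination (-(n:ℝ) * x (τ * t) ^ m * y (τ * t) ^ (n - 1) *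
      (x (τ * t) ^ (2 * m) + y (τ * t) ^ (2 * n)) ^ k) * hττ
  have hy' : ∀ t, 0 ≤ t → HasDerivAt y' (m * x' t ^ (2 * m - 1) -
      m * x' t ^ (m - 1) * y' t ^ n * (x' t ^ (2 * m) + y' t ^ (2 * n)) ^ k) t := by
    intro t ht
    have h1 := ((hxy.dy (τ * t) (by rw [← hτ]; exact hdom t ht)).comp t (hτs t)).const_mul τ
    refine h1.congr_deriv ?_
    rw [hpow2n]
    simp only [x', y', mul_pow, hτn]
    rw [hστ]
    linear_combination ((m:ℝ) * x (τ * t) ^ (2 * m - 1) - τ * (m:ℝ) * x (τ * t) ^ (m - 1) *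
      y (τ * t) ^ n * (x (τ * t) ^ (2 * m) + y (τ * t) ^ (2 * n)) ^ k) * hττ
  have hpos : ∀ t, 0 ≤ t → 0 < x' t ^ (2 * m) + y' t ^ (2 * n) := by
    intro t ht
    rw [hpow2n]
    have h1 : 0 ≤ x' t ^ (2 * m) := by rw [pow_mul]; positivity
    have h2 : 0 ≤ y (τ * t) ^ (2 * n) := by rw [pow_mul]; positivity
    rcases hxy.ne_zero (τ * t) (by rw [← hτ]; exact hdom t ht) with h | h
    · have : 0 < x' t ^ (2 * m) := by
        rw [pow_mul]; exact pow_pos (by simp only [x']; positivity) _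
      linarith
    · have : 0 < y (τ * t) ^ (2 * n) := by
        rw [pow_mul]; exact pow_pos (by positivity) _
      linarith
  have hxl : Tendsto x' atTop (𝓝 0) := hxy.lim.1
  have hyl : Tendsto (fun s => y (τ * s)) atTop (𝓝 0) := hxy.lim.2
  have hlim : Tendsto (fun t => x' t ^ (2 * m) + y' t ^ (2 * n)) atTop (𝓝 0) := by
    have h1 := hxl.pow (2 * m)
    have h2 := hyl.pow (2 * n)
    rw [zero_pow (by have := hm.pos; omega)] at h1
    rw [zero_pow (by have := hn.pos; omega)] at h2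
    have h3 := h1.add h2
    rw [add_zero] at h3
    refine h3.congr fun t => ?_
    rw [hpow2n]
  have S := sys_of_ode hm hn hnm hk hx' hy' hpos hlim
  have hkR : (0:ℝ) < k := by exact_mod_cast (lt_of_lt_of_le one_pos hk)
  have hmR : (0:ℝ) < m := by exact_mod_cast hm.pos
  have hnR : (0:ℝ) < n := by exact_mod_cast hn.pos
  -- recover the coordinates
  have hcx : ∀ t, 0 ≤ t → (((x' t ^ (2 * m) + y' t ^ (2 * n)) ^ k)⁻¹) ^ (-al m k) *
      (x' t * (x' t ^ (2 * m) + y' t ^ (2 * n)) ^ (-(1 / (2 * m : ℝ)))) = x' t := by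
    intro t ht
    have h0 := hpos t ht
    set ρ := x' t ^ (2 * m) + y' t ^ (2 * n)
    rw [inv_rpow (by positivity), ← rpow_neg (by positivity), neg_neg, ← rpow_natCast,
      ← rpow_mul h0.le, mul_left_comm, ← rpow_add h0]
    have : (k:ℝ) * al m k + -(1 / (2 * m : ℝ)) = 0 := by
      unfold al; field_simp; ring
    rw [this, rpow_zero, mul_one]
  have hcy : ∀ t, 0 ≤ t → (((x' t ^ (2 * m) + y' t ^ (2 * n)) ^ k)⁻¹) ^ (-al n k) *
      (y' t * (x' t ^ (2 * m) + y' t ^ (2 * n)) ^ (-(1 / (2 * n : ℝ)))) = y' t := by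
    intro t ht
    have h0 := hpos t ht
    set ρ := x' t ^ (2 * m) + y' t ^ (2 * n)
    rw [inv_rpow (by positivity), ← rpow_neg (by positivity), neg_neg, ← rpow_natCast,
      ← rpow_mul h0.le, mul_left_comm, ← rpow_add h0]
    have : (k:ℝ) * al n k + -(1 / (2 * n : ℝ)) = 0 := by
      unfold al; field_simp; ring
    rw [this, rpow_zero, mul_one]
  have hty : ∀ t, τ * y' t = y (τ * t) := by
    intro t; simp only [y']; rw [← mul_assoc, hττ, one_mul]
  set E : Set E2 := {p | (∃ t, 0 ≤ τ * t ∧ p = !₂[x t, y t]) ∧ p ∈ N} with hEdef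
  -- the points of small level are in `N`
  obtain ⟨r, hr, hball⟩ := Metric.mem_nhds_iff.1 hN
  have hkN : 0 < k := hk
  have hα0 := al_pos (m := m) hm.pos hkN
  have hβ0 := al_pos (m := n) hn.pos hkN
  have hlimα : Tendsto (fun v : ℝ => v ^ (-al m k)) atTop (𝓝 0) := tendsto_rpow_neg_atTop hα0
  have hlimβ : Tendsto (fun v : ℝ => v ^ (-al n k)) atTop (𝓝 0) := tendsto_rpow_neg_atTop hβ0
  obtain ⟨u₁, hu₁⟩ := eventually_atTop.1 ((hlimα.eventually_lt_const (half_pos hr)).and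
    ((hlimβ.eventually_lt_const (half_pos hr)).and (eventually_gt_atTop 0)))
  have hbounds := dim_of_sys S (τ := τ) hτabs (E := E) (u₁ := u₁)
    (by
      rintro p ⟨⟨t, ht, rfl⟩, -⟩
      refine ⟨τ * t, ht, ?_, ?_⟩
      · rw [hcx (τ * t) ht]
        simp only [x', ← mul_assoc, hττ, one_mul]
        simp
      · rw [hcy (τ * t) ht, hty, ← mul_assoc, hττ, one_mul]
        simp)
    (by
      intro p t ht hu hp0 hp1
      have hXb := S.absX_le ht
      have hYb := S.absY_le ht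
      have hu' := hu₁ _ hu
      have hup : 0 < ((x' t ^ (2 * m) + y' t ^ (2 * n)) ^ k)⁻¹ := hu'.2.2
      have q0 : |p 0| < r / 2 := by
        rw [hp0, abs_mul, abs_of_pos (rpow_pos_of_pos hup _)]
        calc _ ≤ (((x' t ^ (2 * m) + y' t ^ (2 * n)) ^ k)⁻¹) ^ (-al m k) * 1 :=
              mul_le_mul_of_nonneg_left hXb (rpow_pos_of_pos hup _).le
          _ < r / 2 := by rw [mul_one]; exact hu'.1
      have q1 : |p 1| < r / 2 := by
        rw [hp1, abs_mul, hτabs, one_mul, abs_mul, abs_of_pos (rpow_pos_of_pos hup _)]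
        calc _ ≤ (((x' t ^ (2 * m) + y' t ^ (2 * n)) ^ k)⁻¹) ^ (-al n k) * 1 :=
              mul_le_mul_of_nonneg_left hYb (rpow_pos_of_pos hup _).le
          _ < r / 2 := by rw [mul_one]; exact hu'.2.1
      have e0 : p 0 = x (τ * t) := by rw [hp0]; exact hcx t ht
      have e1 : p 1 = y (τ * t) := by
        rw [hp1]
        have := hcy t ht
        rw [this, hty]
      refine ⟨⟨τ * t, hdom t ht, ?_⟩, hball ?_⟩
      · ext i
        fin_cases i
        · simpa using e0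
        · simpa using e1
      · rw [mem_ball_zero_iff, EuclideanSpace.norm_eq, Fin.sum_univ_two,
          sqrt_lt' hr, Real.norm_eq_abs, Real.norm_eq_abs]
        have i0 := abs_nonneg (p 0)
        have i1 := abs_nonneg (p 1)
        nlinarith)
  have hexp : (al m k + al n k) / (1 + al n k) = (1 + (n : ℝ) / m) / (1 + 2 * k * n) := by
    unfold al
    field_simp
    ring
  rw [hexp] at hbounds
  obtain ⟨c, C, hc, hC, hcC⟩ := hbounds
  exact ⟨dim_of_bounds hc hC hcC, c, C, hc, hC, hcC⟩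

end Pool.Agent.Results.MP_7e532d_an.SpiralDim
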